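import Mathlib
import Pool.Agent.MP_79e5e2_lc.Defs
import Pool.Agent.Mg.F2e8011.G4d3f58

open Pool.Agent.MP_79e5e2_lc

open Classical in
/-- Deciding whether the player to move wins a Domineering position is complete for polynomial
space under polynomial-time many-one reductions. -/
theorem Pool.Agent.Results.MP_79e5e2_lc.PSpaceComplete.result :
    PSpace Position.code (fun P => decide P.MoverWins) ∧
    ∀ L : List Bool → Bool, PSpace id L →
      ∃ f : List Bool → Position, Nonempty (Turing.TM2ComputableInPolyTime id Position.code f) ∧
        ∀ x, (L x = true ↔ (f x).MoverWins) :=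
  Pool.Agent.MP_79e5e2_lc.main
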