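import Mathlib
import Pool.Agent.MP_79e5e2_lc.ValDefs
import Pool.Agent.MP_79e5e2_lc.Up

open Pool.Agent.MP_79e5e2_lc

open Classical in
/-- Equality of the game values of two Domineering positions is complete for polynomial space. It
stays hard when the second board is empty and the first one arises in alternate play from the full
rectangle and has value exactly `0` or exactly `g`, for `g = 1 / 4` and for `g = ↑`. -/
theorem Pool.Agent.Results.MP_79e5e2_lc.ValueGap.result :
    PSpace code2 (fun p => decide (Same (.inl p.1.cells) (.inl p.2.cells))) ∧
    ∀ g, g = Form.quarter ∨ g = Form.up → ∀ L : List Bool → Bool, PSpace id L →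
      ∃ f : List Bool → Position × Position,
        Nonempty (Turing.TM2ComputableInPolyTime id code2 f) ∧
        ∀ x, Play (Finset.range (f x).1.n ×ˢ Finset.range (f x).1.m) (f x).1.cells ∧
          (f x).2.cells = ∅ ∧
          (L x = true ↔ Same (.inl (f x).1.cells) (.inl (f x).2.cells)) ∧
          (L x = false → Same (.inl (f x).1.cells) (.inr g)) :=
  Pool.Agent.MP_79e5e2_lc.value_main
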